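import Pool.Agent.Q333.KL.Stmts

/-!
# MP_2024f4_pr: assembly
-/

set_option autoImplicit false

open MeasureTheory ProbabilityTheory InformationTheory Set Filter Topology
open scoped ENNReal NNReal

namespace Pool.Agent.Q333.KL

theorem isProb_unif : IsProbabilityMeasure unif := by
  constructor
  unfold unif
  simp [ENNReal.inv_two_add_inv_two]

theorem ae_unif : ∀ᵐ y ∂unif, |y| = 1 := by
  rw [ae_iff]
  unfold unif
  simp

theorem expTails_prod (hL : TaskLap) {a : ℝ} (ha : 0 < a) (ν : Measure ℝ) [IsProbabilityMeasure ν] :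
    ExpTails ((lap a).prod ν) := by
  obtain ⟨h1, h2, h3⟩ := hL a ha
  refine ⟨a / 2, by positivity, ?_⟩
  have hm : Measurable fun x : ℝ => ENNReal.ofReal (Real.exp (a / 2 * |x|)) := by fun_prop
  have := (measurePreserving_fst (μ := lap a) (ν := ν)).lintegral_comp hm
  rw [this]
  exact h3

theorem tail_prod (hL : TaskLap) {a : ℝ} (ha : 0 < a) (ν : Measure ℝ) [IsProbabilityMeasure ν] {r : ℝ}
    (hr : 0 ≤ r) : Real.exp (-(a * r)) ≤ ((lap a).prod ν).real {z | r ≤ |z.1|} := by
  obtain ⟨h1, h2, h3⟩ := hL a ha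
  have hS : MeasurableSet {x : ℝ | r ≤ |x|} := measurableSet_le measurable_const (by fun_prop)
  have := (measurePreserving_fst (μ := lap a) (ν := ν)).measure_preimage hS.nullMeasurableSet
  have e : ((lap a).prod ν).real {z | r ≤ |z.1|} = (lap a).real {x : ℝ | r ≤ |x|} := by
    rw [measureReal_def, measureReal_def, ← this]
    rfl
  rw [e]
  exact h2 r hr

theorem zz (hKL : TaskKLlow) (hGa : TaskGauss) (hL : TaskLap) (hfin : TaskKLfin) (hlim : TaskLimit)
    (hZ : TaskZZ) (U : ℝ → ℝ) (γ l : ℝ) (hl : 0 < l) :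
    ∃ p₀ : Measure (ℝ × ℝ), IsProbabilityMeasure p₀ ∧ ExpTails p₀ ∧
      klDiv p₀ ((gaussianReal 0 1).prod unif) ≠ ∞ ∧
      ∀ (Ω : Type) [MeasurableSpace Ω] (P : Measure Ω) [IsProbabilityMeasure P] (x v : ℝ → Ω → ℝ),
        IsZZP U γ P p₀ x v → ¬ ∃ C₀ : ℝ, ∀ t, 0 ≤ t →
          klDiv (P.map fun ω => (x t ω, v t ω)) ((gaussianReal 0 1).prod unif) ≤
            ENNReal.ofReal (C₀ * Real.exp (-(l * t))) := by
  have hu := isProb_unif
  have ha : 0 < l / 4 := by positivity
  have hp := (hL (l / 4) ha).1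
  refine ⟨(lap (l / 4)).prod unif, inferInstance, expTails_prod hL ha unif, hfin _ unif ha, ?_⟩
  intro Ω _ P _ x v h
  refine hlim hKL hGa unif (fun t => P.map fun ω => (x t ω, v t ω)) (l / 2) 1 l
    (fun t => Measure.isProbabilityMeasure_map (h.meas t).aemeasurable) one_pos (by positivity)
    (by linarith) ?_
  intro t ht
  have hae : ∀ᵐ z ∂((lap (l / 4)).prod unif), |z.2| = 1 :=
    (Measure.quasiMeasurePreserving_snd (μ := lap (l / 4)) (ν := unif)).ae ae_unif
  refine le_trans ?_ (hZ U γ Ω P _ x v h hae t ht)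
  refine le_trans (le_of_eq ?_) (tail_prod hL ha unif (by positivity : (0 : ℝ) ≤ 2 * t))
  rw [one_mul]
  congr 1
  ring

/-- independence of one member of a family from other members -/
theorem indep_one {Ω ι : Type} [MeasurableSpace Ω] {P : Measure Ω} {N : ι → Ω → ℝ}
    (hm : ∀ i, Measurable (N i)) (hN : iIndepFun N P) (i : ι) (f : ℕ → ι) (hf : ∀ k, f k ≠ i) :
    IndepFun (N i) (fun ω k => N (f k) ω) P := by
  have h := indep_iSup_of_disjoint (m := fun j => MeasurableSpace.comap (N j) inferInstance)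
    (S := {i}) (T := Set.range f) (fun j => (hm j).comap_le) hN (by
      rw [Set.disjoint_singleton_left]
      rintro ⟨k, hk⟩
      exact hf k hk)
  rw [IndepFun]
  refine indep_of_indep_of_le_left (indep_of_indep_of_le_right h ?_) ?_
  · show MeasurableSpace.comap (fun ω k => N (f k) ω)
      (⨆ a : ℕ, MeasurableSpace.comap (fun b : ℕ → ℝ => b a) inferInstance) ≤ _
    rw [MeasurableSpace.comap_iSup]
    refine iSup_le fun k => ?_
    rw [MeasurableSpace.comap_comp]
    exact le_iSup₂_of_le (f := fun j (_ : j ∈ Set.range f) =>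
      MeasurableSpace.comap (N j) inferInstance) (f k) ⟨k, rfl⟩ le_rfl
  · exact le_iSup₂_of_le i rfl le_rfl

theorem ae_pos {Ω : Type} [MeasurableSpace Ω] {P : Measure Ω} {τ : Ω → ℝ} {γ : ℝ}
    (hm : Measurable τ) (h : P.map τ = expMeasure γ) : ∀ᵐ ω ∂P, 0 < τ ω := by
  have h1 : ∀ᵐ y ∂(expMeasure γ), 0 < y := by
    rw [ae_iff]
    simp only [not_lt]
    unfold expMeasure gammaMeasure
    show (volume.withDensity (gammaPDF 1 γ)) (Iic 0) = 0
    rw [withDensity_apply _ measurableSet_Iic]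
    have : ∀ᵐ y ∂(volume.restrict (Iic (0 : ℝ))), gammaPDF 1 γ y = 0 := by
      have h0 : ∀ᵐ y ∂(volume : Measure ℝ), y ≠ 0 := by
        rw [ae_iff]
        simp
      filter_upwards [ae_restrict_mem measurableSet_Iic, ae_restrict_of_ae h0] with y hy hy0
      exact gammaPDF_of_neg (lt_of_le_of_ne hy hy0)
    rw [lintegral_congr_ae this]
    simp
  rw [← h] at h1
  exact ae_of_ae_map hm.aemeasurable h1

theorem bps (hKL : TaskKLlow) (hGa : TaskGauss) (hL : TaskLap) (hfin : TaskKLfin) (hlim : TaskLimit)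
    (hNo : TaskNorm) (hD : TaskDisp) (hMe : TaskMean) (hW : TaskWMeas) (hH : TaskHalf)
    (hI : TaskInd) (U : ℝ → ℝ) (γ l : ℝ) (hl : 0 < l) :
    ∃ p₀ : Measure (ℝ × ℝ), IsProbabilityMeasure p₀ ∧ ExpTails p₀ ∧
      klDiv p₀ ((gaussianReal 0 1).prod (gaussianReal 0 1)) ≠ ∞ ∧
      ∀ (Ω : Type) [MeasurableSpace Ω] (P : Measure Ω) [IsProbabilityMeasure P] (x v : ℝ → Ω → ℝ),
        IsBPS U γ P p₀ x v → ¬ ∃ C₀ : ℝ, ∀ t, 0 ≤ t →
          klDiv (P.map fun ω => (x t ω, v t ω)) ((gaussianReal 0 1).prod (gaussianReal 0 1)) ≤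
            ENNReal.ofReal (C₀ * Real.exp (-(l * t))) := by
  have ha : 0 < l / 6 := by positivity
  have hp := (hL (l / 6) ha).1
  refine ⟨(lap (l / 6)).prod (gaussianReal 0 1), inferInstance, expTails_prod hL ha _,
    hfin _ _ ha, ?_⟩
  intro Ω _ P _ x v h
  refine hlim hKL hGa (gaussianReal 0 1) (fun t => P.map fun ω => (x t ω, v t ω)) (l / 2) (1 / 2) l
    (fun t => Measure.isProbabilityMeasure_map (h.meas t).aemeasurable) (by norm_num)
    (by positivity) (by linarith) ?_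
  intro t ht
  have hS : MeasurableSet {z : ℝ × ℝ | t ≤ |z.1|} :=
    measurableSet_le measurable_const (by fun_prop)
  rw [measureReal_def, Measure.map_apply (h.meas t) hS, ← measureReal_def]
  rcases ht.eq_or_lt with h0 | h0
  · subst h0
    have : ((fun ω => (x 0 ω, v 0 ω)) ⁻¹' {z : ℝ × ℝ | 0 ≤ |z.1|}) = Set.univ := by
      ext ω
      simp
    rw [this]
    simp
    norm_num
  obtain ⟨N, hNm, hN0, hN1, hN2, hNi, hNx, hpath⟩ := h.path
  have hx0 : Measurable (x 0) := (h.meas 0).fst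
  have hv0 : Measurable (v 0) := (h.meas 0).snd
  have hNN : Measurable (fun ω i => N i ω) := measurable_pi_iff.2 hNm
  obtain ⟨i1, i2, i3, i4⟩ := hI Ω _ P (x 0) (v 0) (fun ω i => N i ω) _ _ hx0 hv0 hNN hNx h.init
  have hpos : ∀ᵐ ω ∂P, ∀ k, 0 < N (0, k) ω := by
    rw [ae_all_iff]
    exact fun k => ae_pos (hNm _) (hN0 k)
  have hHm : ∀ m, Measurable fun ω => HH (v 0 ω) (fun k => N (1, k) ω) m := by
    intro m
    unfold HH
    split_ifs
    · exact hv0
    · exact hNm _
  have hHl : ∀ m, P.map (fun ω => HH (v 0 ω) (fun k => N (1, k) ω) m) = gaussianReal 0 1 := by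
    intro m
    unfold HH
    split_ifs
    · exact i3
    · exact hN1 _
  have hHi : ∀ m, IndepFun (fun ω => HH (v 0 ω) (fun k => N (1, k) ω) m)
      (fun ω k => N (0, k) ω) P := by
    intro m
    unfold HH
    split_ifs
    · have hc : Measurable fun (n : Fin 3 × ℕ → ℝ) (k : ℕ) => n (0, k) := by fun_prop
      exact i4.comp measurable_id hc
    · exact indep_one hNm hNi (1, m - 1) (fun k => (0, k)) (fun k hk => by
        have h01 : (0 : Fin 3) = 1 := congrArg Prod.fst hk
        exact absurd h01 (by decide))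
  have hmean := hMe Ω P (fun k => N (0, k)) (fun m ω => HH (v 0 ω) (fun k => N (1, k) ω) m)
    (fun k => hNm _) hHm hpos hHl hHi t ht
  have hFm : Measurable fun q : ℝ × (Fin 3 × ℕ → ℝ) =>
      WW (fun k => q.2 (0, k)) (fun m => HH q.1 (fun k => q.2 (1, k)) m) t := by
    have hg : Measurable fun q : ℝ × (Fin 3 × ℕ → ℝ) =>
        (((fun k => q.2 (0, k)), (fun m => HH q.1 (fun k => q.2 (1, k)) m)) :
          (ℕ → ℝ) × (ℕ → ℝ)) := by
      refine Measurable.prodMk (by fun_prop) ?_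
      rw [measurable_pi_iff]
      intro m
      unfold HH
      split_ifs
      · exact measurable_fst
      · fun_prop
    exact (hW t).comp hg
  have hWi : IndepFun (x 0) (fun ω => WW (fun k => N (0, k) ω)
      (fun m => HH (v 0 ω) (fun k => N (1, k) ω) m) t) P :=
    i1.comp measurable_id hFm
  have hWm : Measurable (fun ω => WW (fun k => N (0, k) ω)
      (fun m => HH (v 0 ω) (fun k => N (1, k) ω) m) t) :=
    hFm.comp (hv0.prodMk hNN)
  have hhalf := hH Ω P (x 0) _ t h0 hx0 hWm hWi hmean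
  have hx3 : Real.exp (-(l / 6 * (3 * t))) ≤ P.real {ω | 3 * t ≤ |x 0 ω|} := by
    refine (tail_prod hL ha (gaussianReal 0 1) (by positivity : (0 : ℝ) ≤ 3 * t)).trans
      (le_of_eq ?_)
    have hS3 : MeasurableSet {z : ℝ × ℝ | 3 * t ≤ |z.1|} :=
      measurableSet_le measurable_const (by fun_prop)
    rw [← h.init, measureReal_def, Measure.map_apply (h.meas 0) hS3, ← measureReal_def]
    rfl
  have hlast : P.real {ω | 3 * t ≤ |x 0 ω| ∧ WW (fun k => N (0, k) ω)
      (fun m => HH (v 0 ω) (fun k => N (1, k) ω) m) t ≤ ENNReal.ofReal (2 * t)} ≤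
      P.real ((fun ω => (x t ω, v t ω)) ⁻¹' {z : ℝ × ℝ | t ≤ |z.1|}) := by
    rw [measureReal_def, measureReal_def]
    refine ENNReal.toReal_mono (measure_ne_top _ _) (measure_mono_ae ?_)
    filter_upwards [hpath, hpos] with ω hω hω' hmem
    have hmem : 3 * t ≤ |x 0 ω| ∧ WW (fun k => N (0, k) ω)
      (fun m => HH (v 0 ω) (fun k => N (1, k) ω) m) t ≤ ENNReal.ofReal (2 * t) := hmem
    have hd := (hD hNo U _ _ _ _ _ hω' hω t ht).trans hmem.2
    rw [ENNReal.ofReal_le_ofReal_iff (by positivity)] at hd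
    show t ≤ |x t ω|
    have h5 : |x 0 ω| ≤ |x t ω| + |x t ω - x 0 ω| := by
      have : x 0 ω = x t ω - (x t ω - x 0 ω) := by ring
      calc |x 0 ω| = |x t ω - (x t ω - x 0 ω)| := by rw [← this]
        _ ≤ _ := abs_sub _ _
    linarith [hmem.1]
  have e : Real.exp (-(l / 6 * (3 * t))) = Real.exp (-(l / 2 * t)) := by
    congr 1
    ring
  rw [e] at hx3
  linarith

end Pool.Agent.Q333.KL
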