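import Mathlib

/-!
# MP_2024f4_pr: no uniform entropic rate for the Zig-Zag process and the Bouncy Particle Sampler

Definitions of the two processes in dimension one and the statements of the tasks.
-/

set_option autoImplicit false

open MeasureTheory ProbabilityTheory InformationTheory Set Filter Topology
open scoped ENNReal NNReal

namespace Pool.Agent.Q333.KL

noncomputable section

/-! ### definitions -/

/-- `π ∝ e^{-U}` -/
def gibbs (U : ℝ → ℝ) : Measure ℝ :=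
  (ENNReal.ofReal (∫ x, Real.exp (-U x)))⁻¹ •
    volume.withDensity fun x => ENNReal.ofReal (Real.exp (-U x))

/-- the uniform measure on `{-1, 1}` -/
def unif : Measure ℝ := (2⁻¹ : ℝ≥0∞) • Measure.dirac 1 + (2⁻¹ : ℝ≥0∞) • Measure.dirac (-1)

/-- partial sums `τ 0 + ... + τ (k-1)` -/
def psum (τ : ℕ → ℝ) (k : ℕ) : ℝ := ∑ j ∈ Finset.range k, τ j

/-- The path `(x, v)` of the Zig-Zag process with the exponential clocks `E`: the velocity has changed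
its sign once for each `k` such that `E 0 + ... + E k` is at most the integral of the rate
`(v U'(x))⁺ + γ` up to time `t`. -/
def ZZPath (U : ℝ → ℝ) (γ : ℝ) (E : ℕ → ℝ) (x v : ℝ → ℝ) : Prop :=
  ∀ t, 0 ≤ t → IntervalIntegrable v volume 0 t ∧ x t = x 0 + ∫ s in (0 : ℝ)..t, v s ∧
    v t = v 0 * (-1) ^ (Nat.card {k : ℕ // psum E (k + 1) ≤
      ∫ s in (0 : ℝ)..t, (max (v s * deriv U (x s)) 0 + γ)})

/-- `(x_t, v_t)` is a Zig-Zag process (on the line) with the initial law `p₀`. -/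
structure IsZZP (U : ℝ → ℝ) (γ : ℝ) {Ω : Type} [MeasurableSpace Ω] (P : Measure Ω)
    (p₀ : Measure (ℝ × ℝ)) (x v : ℝ → Ω → ℝ) : Prop where
  meas : ∀ t, Measurable fun ω => (x t ω, v t ω)
  init : P.map (fun ω => (x 0 ω, v 0 ω)) = p₀
  path : ∃ E : ℕ → Ω → ℝ, (∀ k, Measurable (E k)) ∧ (∀ k, P.map (E k) = expMeasure 1) ∧
    iIndepFun E P ∧ IndepFun (fun ω => (x 0 ω, v 0 ω)) (fun ω k => E k ω) P ∧
    ∀ᵐ ω ∂P, ZZPath U γ (fun k => E k ω) (fun t => x t ω) (fun t => v t ω)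

/-- The path `(x, v)` of the Bouncy Particle Sampler with the waiting times `τ` for the refreshments, the
refreshed velocities `G` and the exponential clocks `E` for the bounces: `T k` is the time of the `k`-th
event, `m k` the number of the refreshments and `b k` the number of the bounces among the first `k`
events. The next event is the refreshment at `τ 0 + ... + τ (m k)` or the bounce at the first time at
which the integral of the rate `(v U'(x))⁺` is `E 0 + ... + E (b k)`, whichever is first. -/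
def BPSPath (U : ℝ → ℝ) (τ G E : ℕ → ℝ) (x v : ℝ → ℝ) : Prop :=
  (∀ t, 0 ≤ t → IntervalIntegrable v volume 0 t ∧ x t = x 0 + ∫ s in (0 : ℝ)..t, v s) ∧
  ∃ (T : ℕ → ℝ) (m b : ℕ → ℕ), T 0 = 0 ∧ m 0 = 0 ∧ b 0 = 0 ∧ StrictMono T ∧
    Tendsto T atTop atTop ∧
    (∀ k s, T k ≤ s → s < T (k + 1) → v s = v (T k) ∧ s < psum τ (m k + 1) ∧
      ∫ r in (0 : ℝ)..s, max (v r * deriv U (x r)) 0 < psum E (b k + 1)) ∧
    ∀ k, (T (k + 1) = psum τ (m k + 1) ∧ v (T (k + 1)) = G (m k) ∧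
        m (k + 1) = m k + 1 ∧ b (k + 1) = b k) ∨
      (T (k + 1) < psum τ (m k + 1) ∧
        ∫ r in (0 : ℝ)..(T (k + 1)), max (v r * deriv U (x r)) 0 = psum E (b k + 1) ∧
        v (T (k + 1)) = v (T k) - 2 * (v (T k) * deriv U (x (T (k + 1)))) /
          (deriv U (x (T (k + 1)))) ^ 2 * deriv U (x (T (k + 1))) ∧
        m (k + 1) = m k ∧ b (k + 1) = b k + 1)

/-- `(x_t, v_t)` is a Bouncy Particle Sampler (on the line) with the initial law `p₀`. -/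
structure IsBPS (U : ℝ → ℝ) (γ : ℝ) {Ω : Type} [MeasurableSpace Ω] (P : Measure Ω)
    (p₀ : Measure (ℝ × ℝ)) (x v : ℝ → Ω → ℝ) : Prop where
  meas : ∀ t, Measurable fun ω => (x t ω, v t ω)
  init : P.map (fun ω => (x 0 ω, v 0 ω)) = p₀
  path : ∃ N : Fin 3 × ℕ → Ω → ℝ, (∀ i, Measurable (N i)) ∧
    (∀ k, P.map (N (0, k)) = expMeasure γ) ∧ (∀ k, P.map (N (1, k)) = gaussianReal 0 1) ∧
    (∀ k, P.map (N (2, k)) = expMeasure 1) ∧
    iIndepFun N P ∧ IndepFun (fun ω => (x 0 ω, v 0 ω)) (fun ω i => N i ω) P ∧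
    ∀ᵐ ω ∂P, BPSPath U (fun k => N (0, k) ω) (fun k => N (1, k) ω) (fun k => N (2, k) ω)
      (fun t => x t ω) (fun t => v t ω)

/-- exponential tails -/
def ExpTails (p : Measure (ℝ × ℝ)) : Prop :=
  ∃ a : ℝ, 0 < a ∧ ∫⁻ z, ENNReal.ofReal (Real.exp (a * |z.1|)) ∂p < ∞

/-- the two-sided exponential law -/
def lap (a : ℝ) : Measure ℝ :=
  volume.withDensity fun x => ENNReal.ofReal (a / 2 * Real.exp (-(a * |x|)))

/-- the velocities after the refreshments -/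
def HH (v₀ : ℝ) (G : ℕ → ℝ) (m : ℕ) : ℝ := if m = 0 then v₀ else G (m - 1)

/-- the length of the path up to time `t` -/
def WW (τ H : ℕ → ℝ) (t : ℝ) : ℝ≥0∞ :=
  ∫⁻ s in Ioc 0 t, ∑' m, (Ico (psum τ m) (psum τ (m + 1))).indicator
    (fun _ => ENNReal.ofReal |H m|) s

/-! ### tasks -/

/-- lower bound of the entropy; hint: `klDiv_eq_lintegral_klFun_of_ac`, restrict the integral to `A`, this is
`klDiv (p.restrict A) (μ.restrict A)`, and `mul_log_le_klDiv`. (If `μ A = 0` then `p A = 0` or `klDiv = ∞`.) -/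
def TaskKLlow : Prop := ∀ (α : Type) [MeasurableSpace α] (p μ : Measure α) [IsProbabilityMeasure p]
  [IsProbabilityMeasure μ] (A : Set α), MeasurableSet A →
    ENNReal.ofReal (p.real A * Real.log (p.real A / μ.real A) - p.real A) ≤ klDiv p μ

/-- Gaussian tail; hint: Chernoff (`HasSubgaussianMGF`, `measure_ge_le_exp_mul_mgf`, `mgf_gaussianReal`) -/
def TaskGauss : Prop := ∀ t : ℝ, 0 ≤ t →
  (gaussianReal 0 1).real {x | t ≤ |x|} ≤ 2 * Real.exp (-(t ^ 2 / 2))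

/-- hint: `integral_exp_neg...`, symmetric: `Ioi` and `Iic`; or `integral_comp_abs` -/
def TaskLap : Prop := ∀ a : ℝ, 0 < a → IsProbabilityMeasure (lap a) ∧
  (∀ r : ℝ, 0 ≤ r → Real.exp (-(a * r)) ≤ (lap a).real {x | r ≤ |x|}) ∧
  ∫⁻ x, ENNReal.ofReal (Real.exp (a / 2 * |x|)) ∂(lap a) < ∞

/-- finite entropy; hint: `lap a` has the density `f x = (a/2) e^{-a|x|} √(2π) e^{x²/2}` with respect to the
Gaussian, `prod_withDensity_left`, `rnDeriv_withDensity`, `klDiv_ne_top_iff`; `log f` is a quadratic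
polynomial in `|x|`, integrable for `lap a` -/
def TaskKLfin : Prop := ∀ (a : ℝ) (ν : Measure ℝ) [IsProbabilityMeasure ν], 0 < a →
  klDiv ((lap a).prod ν) ((gaussianReal 0 1).prod ν) ≠ ∞

/-- the limit argument: `p log (p/q) - p ≥ p` for large `t` with `p ≥ c e^{-bt}`, `q ≤ 2 e^{-t²/2}` -/
def TaskLimit : Prop := TaskKLlow → TaskGauss →
  ∀ (ν : Measure ℝ) [IsProbabilityMeasure ν] (p : ℝ → Measure (ℝ × ℝ)) (b c l : ℝ),
    (∀ t, IsProbabilityMeasure (p t)) → 0 < c → 0 ≤ b → b < l →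
    (∀ t, 0 ≤ t → c * Real.exp (-(b * t)) ≤ (p t).real {z | t ≤ |z.1|}) →
    ¬ ∃ C₀ : ℝ, ∀ t, 0 ≤ t →
      klDiv (p t) ((gaussianReal 0 1).prod ν) ≤ ENNReal.ofReal (C₀ * Real.exp (-(l * t)))

/-- `|v t| = 1`, so `|x t - x 0| ≤ t` -/
def TaskZZ : Prop := ∀ (U : ℝ → ℝ) (γ : ℝ) (Ω : Type) [MeasurableSpace Ω] (P : Measure Ω)
  [IsProbabilityMeasure P] (p₀ : Measure (ℝ × ℝ)) (x v : ℝ → Ω → ℝ), IsZZP U γ P p₀ x v →
  (∀ᵐ z ∂p₀, |z.2| = 1) → ∀ t, 0 ≤ t →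
    p₀.real {z | 2 * t ≤ |z.1|} ≤ (P.map fun ω => (x t ω, v t ω)).real {z | t ≤ |z.1|}

/-- induction on `k`: `psum τ (m k) ≤ T k` and `|v (T k)| = |HH (v 0) G (m k)|`; then `T k ≤ s < T (k+1)` -/
def TaskNorm : Prop := ∀ (U : ℝ → ℝ) (τ G E : ℕ → ℝ) (x v : ℝ → ℝ), (∀ k, 0 < τ k) →
  BPSPath U τ G E x v → ∀ s, 0 ≤ s →
    ∃ m, psum τ m ≤ s ∧ s < psum τ (m + 1) ∧ |v s| = |HH (v 0) G m|

/-- `|x t - x 0| ≤ ∫ |v|` -/
def TaskDisp : Prop := TaskNorm → ∀ (U : ℝ → ℝ) (τ G E : ℕ → ℝ) (x v : ℝ → ℝ), (∀ k, 0 < τ k) →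
  BPSPath U τ G E x v → ∀ t, 0 ≤ t → ENNReal.ofReal |x t - x 0| ≤ WW τ (HH (v 0) G) t

/-- Tonelli; the intervals are disjoint, `∑ P(psum m ≤ s < psum (m+1)) E|H m| ≤ E|H| ≤ 1` -/
def TaskMean : Prop := ∀ (Ω : Type) [MeasurableSpace Ω] (P : Measure Ω) [IsProbabilityMeasure P]
  (τ H : ℕ → Ω → ℝ), (∀ k, Measurable (τ k)) → (∀ k, Measurable (H k)) →
  (∀ᵐ ω ∂P, ∀ k, 0 < τ k ω) → (∀ k, P.map (H k) = gaussianReal 0 1) →
  (∀ m, IndepFun (H m) (fun ω k => τ k ω) P) → ∀ t, 0 ≤ t →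
    ∫⁻ ω, WW (fun k => τ k ω) (fun k => H k ω) t ∂P ≤ ENNReal.ofReal t

/-- measurability of the length of the path -/
def TaskWMeas : Prop := ∀ t : ℝ, Measurable fun q : (ℕ → ℝ) × (ℕ → ℝ) => WW q.1 q.2 t

/-- Markov's inequality and independence -/
def TaskHalf : Prop := ∀ (Ω : Type) [MeasurableSpace Ω] (P : Measure Ω) [IsProbabilityMeasure P]
  (X : Ω → ℝ) (W : Ω → ℝ≥0∞) (t : ℝ), 0 < t → Measurable X → Measurable W → IndepFun X W P →
  ∫⁻ ω, W ω ∂P ≤ ENNReal.ofReal t →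
    P.real {ω | 3 * t ≤ |X ω|} / 2 ≤ P.real {ω | 3 * t ≤ |X ω| ∧ W ω ≤ ENNReal.ofReal (2 * t)}

/-- `x₀` is independent of `v₀` and the noise -/
def TaskInd : Prop := ∀ (Ω β : Type) [MeasurableSpace Ω] [MeasurableSpace β] (P : Measure Ω)
  [IsProbabilityMeasure P] (X V : Ω → ℝ) (N : Ω → β) (ρ ν : Measure ℝ) [IsProbabilityMeasure ρ]
  [IsProbabilityMeasure ν], Measurable X → Measurable V → Measurable N →
  IndepFun (fun ω => (X ω, V ω)) N P → P.map (fun ω => (X ω, V ω)) = ρ.prod ν →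
    IndepFun X (fun ω => (V ω, N ω)) P ∧ P.map X = ρ ∧ P.map V = ν ∧ IndepFun V N P

/-- the Gibbs measure of `x²/2` and the standing assumptions -/
def TaskGibbs : Prop := gibbs (fun x => x ^ 2 / 2) = gaussianReal 0 1 ∧
  ContDiff ℝ 2 (fun x : ℝ => x ^ 2 / 2) ∧ (∀ x, deriv (deriv fun x : ℝ => x ^ 2 / 2) x = 1) ∧
  Integrable fun x : ℝ => Real.exp (-(x ^ 2 / 2))

end

end Pool.Agent.Q333.KL
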