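import Pool.Agent.Q333.KL.Stmts

set_option autoImplicit false

open MeasureTheory ProbabilityTheory InformationTheory Set Filter Topology
open scoped ENNReal NNReal

namespace Pool.Agent.Q333.KL.TaskDisp

theorem main : Pool.Agent.Q333.KL.TaskDisp := by
  intro hN U τ G E x v hτ hp t ht
  obtain ⟨-, hx⟩ := hp.1 t ht
  have h1 : x t - x 0 = ∫ s in Ioc 0 t, v s := by
    rw [hx, intervalIntegral.integral_of_le ht]
    ring
  rw [h1, ← Real.enorm_eq_ofReal_abs]
  refine (enorm_integral_le_lintegral_enorm _).trans ?_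
  unfold WW
  refine setLIntegral_mono' measurableSet_Ioc ?_
  intro s hs
  obtain ⟨m, h2, h3, h4⟩ := hN U τ G E x v hτ hp s hs.1.le
  rw [Real.enorm_eq_ofReal_abs, h4]
  refine le_trans ?_ (ENNReal.le_tsum m)
  rw [indicator_of_mem]
  exact ⟨h2, h3⟩

end Pool.Agent.Q333.KL.TaskDisp
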