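import Pool.Agent.Q333.KL.Stmts

set_option autoImplicit false

open MeasureTheory ProbabilityTheory Set

namespace Pool.Agent.Q333.KL.TaskGauss

theorem main : Pool.Agent.Q333.KL.TaskGauss := by
  intro t ht
  have h1 : (gaussianReal 0 1).real {x : ℝ | t ≤ id x} ≤
      Real.exp (-t * t) * mgf id (gaussianReal 0 1) t :=
    measure_ge_le_exp_mul_mgf t ht (integrable_exp_mul_gaussianReal t)
  have h2 : (gaussianReal 0 1).real {x : ℝ | id x ≤ -t} ≤
      Real.exp (-(-t) * (-t)) * mgf id (gaussianReal 0 1) (-t) :=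
    measure_le_le_exp_mul_mgf (-t) (by linarith) (integrable_exp_mul_gaussianReal (-t))
  rw [mgf_id_gaussianReal, ← Real.exp_add] at h1 h2
  have e1 : -t * t + (0 * t + ((1 : NNReal) : ℝ) * t ^ 2 / 2) = -(t ^ 2 / 2) := by
    simp only [NNReal.coe_one]
    ring
  have e2 : -(-t) * (-t) + (0 * (-t) + ((1 : NNReal) : ℝ) * (-t) ^ 2 / 2) = -(t ^ 2 / 2) := by
    simp only [NNReal.coe_one]
    ring
  rw [e1] at h1
  rw [e2] at h2
  have h3 : {x : ℝ | t ≤ |x|} ⊆ {x : ℝ | t ≤ id x} ∪ {x : ℝ | id x ≤ -t} := by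
    intro x hx
    simp only [mem_setOf_eq, mem_union, id] at hx ⊢
    rcases le_abs.1 hx with h | h
    · exact Or.inl h
    · exact Or.inr (by linarith)
  calc (gaussianReal 0 1).real {x | t ≤ |x|}
      ≤ (gaussianReal 0 1).real ({x : ℝ | t ≤ id x} ∪ {x : ℝ | id x ≤ -t}) :=
        measureReal_mono h3
    _ ≤ (gaussianReal 0 1).real {x : ℝ | t ≤ id x} + (gaussianReal 0 1).real {x : ℝ | id x ≤ -t} :=
        measureReal_union_le _ _
    _ ≤ 2 * Real.exp (-(t ^ 2 / 2)) := by linarith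

end Pool.Agent.Q333.KL.TaskGauss
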