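import Pool.Agent.Q333.KL.Stmts

set_option autoImplicit false

open MeasureTheory ProbabilityTheory Set Filter Topology
open scoped ENNReal NNReal

namespace Pool.Agent.Q333.KL.TaskGibbs

theorem main : Pool.Agent.Q333.KL.TaskGibbs := by
  have hI : ∫ x : ℝ, Real.exp (-(x ^ 2 / 2)) = √(2 * Real.pi) := by
    have h := integral_gaussian (1 / 2)
    rw [show Real.pi / (1 / 2) = 2 * Real.pi by ring] at h
    rw [← h]
    refine integral_congr_ae (Eventually.of_forall fun x => ?_)
    show Real.exp (-(x ^ 2 / 2)) = Real.exp (-(1 / 2) * x ^ 2)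
    congr 1
    ring
  have hd : ∀ x : ℝ, deriv (fun x : ℝ => x ^ 2 / 2) x = x := by
    intro x
    have h : HasDerivAt (fun x : ℝ => x ^ 2 / 2) ((2 : ℕ) * x ^ (2 - 1) / 2) x :=
      (hasDerivAt_pow 2 x).div_const 2
    rw [h.deriv]
    norm_num
  refine ⟨?_, ?_, ?_, ?_⟩
  · unfold gibbs
    rw [hI, gaussianReal_of_var_ne_zero 0 one_ne_zero]
    have hm : Measurable fun x : ℝ => ENNReal.ofReal (Real.exp (-(x ^ 2 / 2))) := by
      fun_prop
    rw [← withDensity_smul _ hm]
    congr 1
    funext x
    have hs : 0 < √(2 * Real.pi) := by positivity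
    simp only [Pi.smul_apply, smul_eq_mul, gaussianPDF, gaussianPDFReal]
    rw [← ENNReal.ofReal_inv_of_pos hs, ← ENNReal.ofReal_mul (by positivity)]
    congr 2
    · simp
    · congr 1
      simp
      ring
  · fun_prop
  · intro x
    have : (deriv fun x : ℝ => x ^ 2 / 2) = fun x => x := funext hd
    rw [this]
    simp
  · have h := integrable_exp_neg_mul_sq (b := 1 / 2) (by norm_num)
    refine h.congr (Eventually.of_forall fun x => ?_)
    show Real.exp (-(1 / 2) * x ^ 2) = Real.exp (-(x ^ 2 / 2))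
    congr 1
    ring

end Pool.Agent.Q333.KL.TaskGibbs
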