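import Mathlib
import Pool.Agent.Q333.KL.Stmts

set_option autoImplicit false

open MeasureTheory ProbabilityTheory InformationTheory Set Filter Topology
open scoped ENNReal NNReal

namespace Pool.Agent.Q333.KL.TaskHalf

theorem main : Pool.Agent.Q333.KL.TaskHalf := by
  intro Ω _ P _ X W t ht hX hW hind hE
  have hmeasA : MeasurableSet {x : ℝ | 3 * t ≤ |x|} := measurableSet_le measurable_const (by fun_prop)
  have hAB : P (X ⁻¹' {x : ℝ | 3 * t ≤ |x|} ∩ W ⁻¹' (Iic (ENNReal.ofReal (2 * t)))) =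
      P (X ⁻¹' {x : ℝ | 3 * t ≤ |x|}) * P (W ⁻¹' (Iic (ENNReal.ofReal (2 * t)))) :=
    hind.measure_inter_preimage_eq_mul _ _ hmeasA measurableSet_Iic
  have hAB' : P.real {ω | 3 * t ≤ |X ω| ∧ W ω ≤ ENNReal.ofReal (2 * t)} =
      P.real {ω | 3 * t ≤ |X ω|} * P.real {ω | W ω ≤ ENNReal.ofReal (2 * t)} := by
    unfold Measure.real
    rw [← ENNReal.toReal_mul]
    congr 1
  have hmB : MeasurableSet {ω | W ω ≤ ENNReal.ofReal (2 * t)} := measurableSet_le hW measurable_const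
  have h0 : ENNReal.ofReal (2 * t) ≠ 0 := by
    rw [Ne, ENNReal.ofReal_eq_zero]
    linarith
  have hBc : P {ω | W ω ≤ ENNReal.ofReal (2 * t)}ᶜ ≤ 2⁻¹ := by
    calc P {ω | W ω ≤ ENNReal.ofReal (2 * t)}ᶜ ≤ P {ω | ENNReal.ofReal (2 * t) ≤ W ω} := by
          refine measure_mono fun ω hω => ?_
          simp only [mem_compl_iff, Set.mem_ofPred_eq, not_le] at hω ⊢
          exact hω.le
      _ ≤ (∫⁻ ω, W ω ∂P) / ENNReal.ofReal (2 * t) :=
          meas_ge_le_lintegral_div hW.aemeasurable h0 ENNReal.ofReal_ne_top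
      _ ≤ ENNReal.ofReal t / ENNReal.ofReal (2 * t) := ENNReal.div_le_div_right hE _
      _ = 2⁻¹ := by
          rw [← ENNReal.ofReal_div_of_pos (by linarith)]
          rw [show t / (2 * t) = 2⁻¹ by field_simp]
          rw [ENNReal.ofReal_inv_of_pos (by norm_num)]
          norm_num
  have hBr : 1 / 2 ≤ P.real {ω | W ω ≤ ENNReal.ofReal (2 * t)} := by
    have h1 := probReal_compl_eq_one_sub (μ := P) hmB
    have h2 : P.real {ω | W ω ≤ ENNReal.ofReal (2 * t)}ᶜ ≤ 1 / 2 := by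
      have h3 := ENNReal.toReal_mono (by simp) hBc
      unfold Measure.real
      refine h3.trans (le_of_eq ?_)
      simp
    linarith
  rw [hAB']
  have h5 : 0 ≤ P.real {ω | 3 * t ≤ |X ω|} := measureReal_nonneg
  nlinarith

end Pool.Agent.Q333.KL.TaskHalf
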