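import Pool.Agent.Q333.KL.Stmts

/-! MP_2024f4_pr blueprint: independence and marginals from a product law. -/

set_option autoImplicit false

open MeasureTheory ProbabilityTheory InformationTheory Set Filter Topology
open scoped ENNReal NNReal

namespace Pool.Agent.Q333.KL.TaskInd

theorem main : Pool.Agent.Q333.KL.TaskInd := by
  intro Ω β _ _ P _ X V N ρ ν _ _ hX hV hN hind hmap
  have hXV : Measurable (fun ω => (X ω, V ω)) := hX.prodMk hV
  have hVN : Measurable (fun ω => (V ω, N ω)) := hV.prodMk hN
  have h4 : IndepFun V N P := by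
    have := hind.comp (measurable_snd : Measurable (Prod.snd : ℝ × ℝ → ℝ)) (measurable_id : Measurable (id : β → β))
    exact this
  have h2 : P.map X = ρ := by
    have e : P.map X = (P.map (fun ω => (X ω, V ω))).map Prod.fst := by
      rw [Measure.map_map measurable_fst hXV]
      rfl
    rw [e, hmap]
    exact Measure.fst_prod
  have h3 : P.map V = ν := by
    have e : P.map V = (P.map (fun ω => (X ω, V ω))).map Prod.snd := by
      rw [Measure.map_map measurable_snd hXV]
      rfl
    rw [e, hmap]
    exact Measure.snd_prod
  refine ⟨?_, h2, h3, h4⟩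
  have : IsProbabilityMeasure (P.map N) := Measure.isProbabilityMeasure_map hN.aemeasurable
  have e1 := (indepFun_iff_map_prod_eq_prod_map_map hXV.aemeasurable hN.aemeasurable).1 hind
  have e2 := (indepFun_iff_map_prod_eq_prod_map_map hV.aemeasurable hN.aemeasurable).1 h4
  rw [indepFun_iff_map_prod_eq_prod_map_map hX.aemeasurable hVN.aemeasurable, e2, h2, h3]
  have e3 : P.map (fun ω => (X ω, V ω, N ω)) =
      (P.map (fun ω => ((X ω, V ω), N ω))).map MeasurableEquiv.prodAssoc := by
    rw [Measure.map_map MeasurableEquiv.prodAssoc.measurable (hXV.prodMk hN)]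
    rfl
  rw [e3, e1, hmap]
  exact Measure.prodAssoc_prod

end Pool.Agent.Q333.KL.TaskInd
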