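import Pool.Agent.Q333.KL.Stmts

/-! Finite entropy of the product of the two-sided exponential law (blueprint lemma for
`MP_2024f4_pr`). -/

set_option autoImplicit false

open MeasureTheory ProbabilityTheory InformationTheory Set Filter Topology
open scoped ENNReal NNReal

namespace Pool.Agent.Q333.KL.TaskKLfin

open Pool.Agent.Q333.KL

lemma integrable_abs {g : ℝ → ℝ} (hg : IntegrableOn g (Ioi 0)) :
    Integrable (fun x => g |x|) := by
  have h1 : IntegrableOn (fun x => g |x|) (Ioi 0) :=
    hg.congr_fun (fun x hx => by simp only [abs_of_pos (mem_Ioi.mp hx)]) measurableSet_Ioi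
  rw [← integrableOn_univ, ← Iio_union_Ici (a := (0 : ℝ)), integrableOn_union,
    integrableOn_Ici_iff_integrableOn_Ioi]
  refine ⟨?_, h1⟩
  rw [← (Measure.measurePreserving_neg (volume : Measure ℝ)).integrableOn_comp_preimage
      (Homeomorph.neg ℝ).measurableEmbedding]
  simpa only [Function.comp_def, neg_preimage, neg_Iio, neg_zero, abs_neg] using h1

lemma int_pow {a : ℝ} (ha : 0 < a) (s : ℝ) (hs : -1 < s) :
    IntegrableOn (fun x : ℝ => x ^ s * Real.exp (-(a * x))) (Ioi 0) := by
  have h := integrableOn_rpow_mul_exp_neg_mul_rpow (p := 1) (s := s) (b := a) hs one_pos ha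
  refine h.congr_fun (fun x _ => ?_) measurableSet_Ioi
  simp only [Real.rpow_one, neg_mul]

theorem main : Pool.Agent.Q333.KL.TaskKLfin := by
  intro a ν _ ha
  set f : ℝ → ℝ≥0∞ := fun x =>
    ENNReal.ofReal (a / 2 * Real.exp (-(a * |x|)) * (√(2 * Real.pi) * Real.exp (x ^ 2 / 2))) with hfdef
  have hf : Measurable f := by
    apply ENNReal.measurable_ofReal.comp
    fun_prop
  have hpi : 0 < √(2 * Real.pi) := Real.sqrt_pos.mpr (by positivity)
  have h1 : lap a = (gaussianReal 0 1).withDensity f := by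
    rw [gaussianReal_of_var_ne_zero 0 one_ne_zero,
      ← withDensity_mul _ (measurable_gaussianPDF 0 1) hf]
    unfold lap
    congr 1
    funext x
    simp only [Pi.mul_apply, gaussianPDF, gaussianPDFReal, hfdef]
    rw [← ENNReal.ofReal_mul (by positivity)]
    congr 1
    have e1 : Real.exp (-(x - 0) ^ 2 / (2 * ((1 : ℝ≥0) : ℝ))) * Real.exp (x ^ 2 / 2) = 1 := by
      rw [← Real.exp_add]
      have : -(x - 0) ^ 2 / (2 * ((1 : ℝ≥0) : ℝ)) + x ^ 2 / 2 = 0 := by
        simp only [NNReal.coe_one]; ring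
      rw [this, Real.exp_zero]
    have e2 : (√(2 * Real.pi * ((1 : ℝ≥0) : ℝ)))⁻¹ * √(2 * Real.pi) = 1 := by
      simp only [NNReal.coe_one, mul_one]
      exact inv_mul_cancel₀ hpi.ne'
    calc a / 2 * Real.exp (-(a * |x|)) = a / 2 * Real.exp (-(a * |x|)) *
          ((√(2 * Real.pi * ((1 : ℝ≥0) : ℝ)))⁻¹ * √(2 * Real.pi)) *
          (Real.exp (-(x - 0) ^ 2 / (2 * ((1 : ℝ≥0) : ℝ))) * Real.exp (x ^ 2 / 2)) := by
          rw [e1, e2]; ring
      _ = _ := by ring
  have h2 : (lap a).prod ν = ((gaussianReal 0 1).prod ν).withDensity (fun z => f z.1) := by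
    rw [h1, prod_withDensity_left hf]
  have hac : (lap a).prod ν ≪ (gaussianReal 0 1).prod ν := by
    rw [h2]; exact withDensity_absolutelyContinuous _ _
  refine klDiv_ne_top hac ?_
  have h3 : llr ((lap a).prod ν) ((gaussianReal 0 1).prod ν) =ᵐ[(lap a).prod ν]
      fun z => Real.log (a / 2 * √(2 * Real.pi)) - a * |z.1| + z.1 ^ 2 / 2 := by
    have h4 : ((lap a).prod ν).rnDeriv ((gaussianReal 0 1).prod ν)
        =ᵐ[(gaussianReal 0 1).prod ν] fun z => f z.1 := by
      rw [h2]
      exact Measure.rnDeriv_withDensity _ (hf.comp measurable_fst)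
    filter_upwards [hac.ae_le h4] with z hz
    unfold llr
    rw [hz, hfdef]
    simp only
    rw [ENNReal.toReal_ofReal (by positivity)]
    have e3 : a / 2 * Real.exp (-(a * |z.1|)) * (√(2 * Real.pi) * Real.exp (z.1 ^ 2 / 2)) =
        (a / 2 * √(2 * Real.pi)) * Real.exp (-(a * |z.1|) + z.1 ^ 2 / 2) := by
      rw [Real.exp_add]; ring
    rw [e3, Real.log_mul (by positivity) (Real.exp_ne_zero _), Real.log_exp]
    ring
  refine Integrable.congr ?_ h3.symm
  have h5 : Integrable (fun x : ℝ => Real.log (a / 2 * √(2 * Real.pi)) - a * |x| + x ^ 2 / 2)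
      (lap a) := by
    unfold lap
    rw [integrable_withDensity_iff (by fun_prop) (by simp)]
    have h7 : IntegrableOn (fun r : ℝ =>
        Real.log (a / 2 * √(2 * Real.pi)) * (a / 2) * (r ^ (0 : ℝ) * Real.exp (-(a * r))) -
        a * (a / 2) * (r ^ (1 : ℝ) * Real.exp (-(a * r))) +
        (a / 4) * (r ^ (2 : ℝ) * Real.exp (-(a * r)))) (Ioi 0) :=
      (((int_pow ha 0 (by norm_num)).const_mul _).sub
        ((int_pow ha 1 (by norm_num)).const_mul _)).add ((int_pow ha 2 (by norm_num)).const_mul _)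
    have h6 := integrable_abs h7
    refine h6.congr (Eventually.of_forall fun x => ?_)
    simp only
    rw [ENNReal.toReal_ofReal (by positivity), Real.rpow_zero, Real.rpow_one, Real.rpow_two, sq_abs]
    ring
  exact Integrable.comp_fst (μ := lap a) h5 ν

end Pool.Agent.Q333.KL.TaskKLfin
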