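import Pool.Agent.Q333.KL.Stmts

set_option autoImplicit false

open MeasureTheory ProbabilityTheory InformationTheory Set Filter Topology
open scoped ENNReal NNReal

namespace Pool.Agent.Q333.KL.TaskKLlow

theorem main : Pool.Agent.Q333.KL.TaskKLlow := by
  intro α _ p μ _ _ A hA
  by_cases hac : p ≪ μ
  swap
  · rw [klDiv_of_not_ac hac]; exact le_top
  have h1 := mul_log_le_klDiv (p.restrict A) (μ.restrict A)
  have hac' : p.restrict A ≪ μ.restrict A := hac.restrict A
  have hr : (p.restrict A).rnDeriv (μ.restrict A) =ᵐ[μ.restrict A] p.rnDeriv μ := by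
    have e : p.restrict A = (μ.restrict A).withDensity (p.rnDeriv μ) := by
      rw [← restrict_withDensity hA, Measure.withDensity_rnDeriv_eq _ _ hac]
    have h := Measure.rnDeriv_withDensity (μ.restrict A) (Measure.measurable_rnDeriv p μ)
    rw [← e] at h
    exact h
  have h2 : klDiv (p.restrict A) (μ.restrict A) ≤ klDiv p μ := by
    rw [klDiv_eq_lintegral_klFun_of_ac hac', klDiv_eq_lintegral_klFun_of_ac hac]
    calc _ = ∫⁻ x in A, ENNReal.ofReal (klFun (p.rnDeriv μ x).toReal) ∂μ :=
          lintegral_congr_ae (hr.mono fun x hx => by simp only [hx])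
      _ ≤ _ := setLIntegral_le_lintegral _ _
  refine le_trans (ENNReal.ofReal_le_ofReal ?_) (h1.trans h2)
  simp only [measureReal_restrict_apply_univ]
  have := measureReal_nonneg (μ := μ) (s := A)
  linarith

end Pool.Agent.Q333.KL.TaskKLlow
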