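import Mathlib
import Pool.Agent.Q333.KL.Stmts

set_option autoImplicit false

open MeasureTheory ProbabilityTheory InformationTheory Set Filter Topology
open scoped ENNReal NNReal

namespace Pool.Agent.Q333.KL.TaskLap

open Pool.Agent.Q333.KL

theorem right (a r : ℝ) (ha : 0 < a) (hr : 0 ≤ r) :
    ∫⁻ x in Ioi r, ENNReal.ofReal (a / 2 * Real.exp (-(a * |x|))) =
      ENNReal.ofReal (Real.exp (-(a * r)) / 2) := by
  have h1 : ∫⁻ x in Ioi r, ENNReal.ofReal (a / 2 * Real.exp (-(a * |x|))) =
      ∫⁻ x in Ioi r, ENNReal.ofReal (a / 2 * Real.exp ((-a) * x)) := by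
    refine setLIntegral_congr_fun measurableSet_Ioi ?_
    intro x hx
    have hx' : r < x := hx
    simp only
    rw [abs_of_pos (lt_of_le_of_lt hr hx')]
    congr 3
    ring
  have hi : Integrable (fun x => a / 2 * Real.exp ((-a) * x)) (volume.restrict (Ioi r)) :=
    (integrableOn_exp_mul_Ioi (by linarith) r).const_mul _
  rw [h1, ← ofReal_integral_eq_lintegral_ofReal hi
    (Eventually.of_forall fun x => by positivity), integral_const_mul,
    integral_exp_mul_Ioi (by linarith) r]
  congr 1
  rw [neg_mul]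
  field_simp

theorem left (a r : ℝ) (ha : 0 < a) (hr : 0 ≤ r) :
    ∫⁻ x in Iic (-r), ENNReal.ofReal (a / 2 * Real.exp (-(a * |x|))) =
      ENNReal.ofReal (Real.exp (-(a * r)) / 2) := by
  have h1 : ∫⁻ x in Iic (-r), ENNReal.ofReal (a / 2 * Real.exp (-(a * |x|))) =
      ∫⁻ x in Iic (-r), ENNReal.ofReal (a / 2 * Real.exp (a * x)) := by
    refine setLIntegral_congr_fun measurableSet_Iic ?_
    intro x hx
    have hx' : x ≤ -r := hx
    simp only
    rw [abs_of_nonpos (by linarith)]
    congr 3
    ring
  have hi : Integrable (fun x => a / 2 * Real.exp (a * x)) (volume.restrict (Iic (-r))) :=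
    (integrableOn_exp_mul_Iic ha (-r)).const_mul _
  rw [h1, ← ofReal_integral_eq_lintegral_ofReal hi
    (Eventually.of_forall fun x => by positivity), integral_const_mul,
    integral_exp_mul_Iic ha (-r)]
  congr 1
  rw [mul_neg]
  field_simp

theorem lap_apply (a : ℝ) {s : Set ℝ} (hs : MeasurableSet s) :
    lap a s = ∫⁻ x in s, ENNReal.ofReal (a / 2 * Real.exp (-(a * |x|))) := by
  unfold lap
  rw [withDensity_apply _ hs]

theorem sum_eq (a r : ℝ) (ha : 0 < a) (hr : 0 ≤ r) :
    lap a (Iic (-r) ∪ Ioi r) = ENNReal.ofReal (Real.exp (-(a * r))) := by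
  have hd : Disjoint (Iic (-r)) (Ioi r) := by
    rw [Set.disjoint_left]
    intro x hx hx'
    have h1 : x ≤ -r := hx
    have h2 : r < x := hx'
    linarith
  rw [measure_union hd measurableSet_Ioi, lap_apply a measurableSet_Iic,
    lap_apply a measurableSet_Ioi, left a r ha hr, right a r ha hr,
    ← ENNReal.ofReal_add (by positivity) (by positivity)]
  congr 1
  ring

theorem univ_eq (a : ℝ) (ha : 0 < a) : lap a univ = 1 := by
  have h := sum_eq a 0 ha le_rfl
  rw [neg_zero, Iic_union_Ioi, mul_zero, neg_zero, Real.exp_zero, ENNReal.ofReal_one] at h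
  exact h

theorem main : Pool.Agent.Q333.KL.TaskLap := by
  intro a ha
  have hp : IsProbabilityMeasure (lap a) := ⟨univ_eq a ha⟩
  refine ⟨hp, fun r hr => ?_, ?_⟩
  · have h1 : lap a (Iic (-r) ∪ Ioi r) ≤ lap a {x | r ≤ |x|} := by
      apply measure_mono
      rintro x (hx | hx)
      · have h1 : x ≤ -r := hx
        show r ≤ |x|
        rw [abs_of_nonpos (by linarith)]
        linarith
      · have h2 : r < x := hx
        exact h2.le.trans (le_abs_self x)
    rw [sum_eq a r ha hr] at h1
    exact (ENNReal.ofReal_le_iff_le_toReal (measure_ne_top _ _)).1 h1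
  · have hm : Measurable fun x : ℝ => ENNReal.ofReal (a / 2 * Real.exp (-(a * |x|))) := by
      fun_prop
    have hg : Measurable fun x : ℝ => ENNReal.ofReal (Real.exp (a / 2 * |x|)) := by
      fun_prop
    unfold lap
    rw [lintegral_withDensity_eq_lintegral_mul _ hm hg]
    have h2 : ∀ x : ℝ, ((fun x : ℝ => ENNReal.ofReal (a / 2 * Real.exp (-(a * |x|)))) *
        fun x : ℝ => ENNReal.ofReal (Real.exp (a / 2 * |x|))) x =
        ENNReal.ofReal 2 * ENNReal.ofReal (a / 2 / 2 * Real.exp (-(a / 2 * |x|))) := by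
      intro x
      simp only [Pi.mul_apply]
      rw [← ENNReal.ofReal_mul (by positivity), ← ENNReal.ofReal_mul (by positivity)]
      congr 1
      have : Real.exp (-(a / 2 * |x|)) = Real.exp (-(a * |x|)) * Real.exp (a / 2 * |x|) := by
        rw [← Real.exp_add]
        congr 1
        ring
      rw [this]
      ring
    rw [lintegral_congr h2, lintegral_const_mul _ (by fun_prop)]
    have h3 : ∫⁻ x : ℝ, ENNReal.ofReal (a / 2 / 2 * Real.exp (-(a / 2 * |x|))) = 1 := by
      have := univ_eq (a / 2) (by positivity)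
      rw [lap_apply (a / 2) MeasurableSet.univ, Measure.restrict_univ] at this
      exact this
    rw [h3, mul_one]
    exact ENNReal.ofReal_lt_top

end Pool.Agent.Q333.KL.TaskLap
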