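import Pool.Agent.Q333.KL.Stmts

/-!
# KL: the limit argument (TaskLimit)
-/

set_option autoImplicit false

open MeasureTheory ProbabilityTheory InformationTheory Set Filter Topology
open scoped ENNReal NNReal

namespace Pool.Agent.Q333.KL

theorem TaskLimit_tail (hG : TaskGauss) (ν : Measure ℝ) [IsProbabilityMeasure ν] (t : ℝ)
    (ht : 0 ≤ t) :
    ((gaussianReal 0 1).prod ν).real {z : ℝ × ℝ | t ≤ |z.1|} ≤ 2 * Real.exp (-(t ^ 2 / 2)) := by
  have e : {z : ℝ × ℝ | t ≤ |z.1|} = {x : ℝ | t ≤ |x|} ×ˢ (Set.univ : Set ℝ) := by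
    ext z; simp
  rw [e, measureReal_prod_prod]
  simp only [probReal_univ, mul_one]
  exact hG t ht

theorem taskLimit : TaskLimit := by
  intro hKL hG ν _ p b c l hp hc hb hbl hlow
  rintro ⟨C₀, hC⟩
  -- growth of `t² / 2 - log 2 + log c - b t - 2`
  have h1 : Tendsto (fun t : ℝ => t ^ 2 / 2 - Real.log 2 + Real.log c - b * t - 2) atTop atTop := by
    have h2 : Tendsto (fun t : ℝ => t * (t / 2 - b)) atTop atTop := by
      refine tendsto_id.atTop_mul_atTop₀ ?_
      have h3 : Tendsto (fun t : ℝ => t / 2) atTop atTop := tendsto_id.atTop_div_const (by norm_num)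
      exact tendsto_atTop_add_const_right _ (-b) h3
    have h4 := tendsto_atTop_add_const_right _ (-Real.log 2 + Real.log c - 2) h2
    refine h4.congr fun t => ?_
    ring
  -- decay of `C₀ exp (-(l - b) t)`
  have h5 : Tendsto (fun t : ℝ => C₀ * Real.exp (-((l - b) * t))) atTop (𝓝 (C₀ * 0)) := by
    refine Tendsto.const_mul _ ?_
    refine Real.tendsto_exp_atBot.comp ?_
    refine tendsto_neg_atTop_atBot.comp ?_
    exact tendsto_id.const_mul_atTop (by linarith)
  rw [mul_zero] at h5
  obtain ⟨t, ht0, htg, htc⟩ : ∃ t : ℝ, 0 ≤ t ∧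
      0 ≤ t ^ 2 / 2 - Real.log 2 + Real.log c - b * t - 2 ∧
      C₀ * Real.exp (-((l - b) * t)) < c := by
    have := ((eventually_ge_atTop (0 : ℝ)).and ((h1.eventually_ge_atTop 0).and
      (h5.eventually_lt_const hc))).exists
    obtain ⟨t, a1, a2, a3⟩ := this
    exact ⟨t, a1, a2, a3⟩
  haveI := hp t
  have hmeas : MeasurableSet {z : ℝ × ℝ | t ≤ |z.1|} :=
    measurableSet_le measurable_const (by fun_prop)
  have key := hKL (ℝ × ℝ) (p t) ((gaussianReal 0 1).prod ν) {z | t ≤ |z.1|} hmeas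
  have key2 := key.trans (hC t ht0)
  set P : ℝ := (p t).real {z : ℝ × ℝ | t ≤ |z.1|} with hP
  set q : ℝ := ((gaussianReal 0 1).prod ν).real {z : ℝ × ℝ | t ≤ |z.1|} with hq
  have hPlow : c * Real.exp (-(b * t)) ≤ P := hlow t ht0
  have hPpos : 0 < P := lt_of_lt_of_le (by positivity) hPlow
  have hqup : q ≤ 2 * Real.exp (-(t ^ 2 / 2)) := TaskLimit_tail hG ν t ht0
  have hqnn : 0 ≤ q := measureReal_nonneg
  -- the Gaussian mass is positive
  have hqpos : 0 < q := by
    have e : {z : ℝ × ℝ | t ≤ |z.1|} = {x : ℝ | t ≤ |x|} ×ˢ (Set.univ : Set ℝ) := by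
      ext z; simp
    rw [hq, e, measureReal_prod_prod]
    simp only [probReal_univ, mul_one]
    have h6 : 0 < (gaussianReal 0 1) {x : ℝ | t < x} := by
      rw [pos_iff_ne_zero]
      intro h0
      have h00 : volume {x : ℝ | t < x} = 0 :=
        (gaussianReal_absolutelyContinuous' 0 (one_ne_zero)) h0
      have e2 : {x : ℝ | t < x} = Set.Ioi t := rfl
      rw [e2, Real.volume_Ioi] at h00
      exact absurd h00 (by simp)
    have h7 : (gaussianReal 0 1) {x : ℝ | t < x} ≤ (gaussianReal 0 1) {x : ℝ | t ≤ |x|} := by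
      apply measure_mono
      intro x hx
      exact le_trans (le_of_lt hx) (le_abs_self x)
    exact ENNReal.toReal_pos (ne_of_gt (h6.trans_le h7)) (measure_ne_top _ _)
  -- the lower bound of the logarithm
  have hlog : 2 ≤ Real.log (P / q) := by
    rw [Real.log_div hPpos.ne' hqpos.ne']
    have a1 : Real.log c - b * t ≤ Real.log P := by
      have := Real.log_le_log (by positivity) hPlow
      rwa [Real.log_mul hc.ne' (Real.exp_pos _).ne', Real.log_exp, ← sub_eq_add_neg] at this
    have a2 : Real.log q ≤ Real.log 2 - t ^ 2 / 2 := by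
      have := Real.log_le_log hqpos hqup
      rwa [Real.log_mul (by norm_num) (Real.exp_pos _).ne', Real.log_exp,
        ← sub_eq_add_neg] at this
    linarith
  have hbig : P ≤ P * Real.log (P / q) - P := by nlinarith
  have h8 : ENNReal.ofReal P ≤ ENNReal.ofReal (C₀ * Real.exp (-(l * t))) :=
    (ENNReal.ofReal_le_ofReal hbig).trans key2
  have h9 : P ≤ C₀ * Real.exp (-(l * t)) := by
    by_contra hcon
    push Not at hcon
    have := (ENNReal.ofReal_lt_ofReal_iff hPpos).2 hcon
    exact absurd h8 (not_le.2 this)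
  have h10 : C₀ * Real.exp (-(l * t)) = C₀ * Real.exp (-((l - b) * t)) * Real.exp (-(b * t)) := by
    rw [mul_assoc, ← Real.exp_add]
    congr 2
    ring
  have h11 : C₀ * Real.exp (-(l * t)) < c * Real.exp (-(b * t)) := by
    rw [h10]
    exact mul_lt_mul_of_pos_right htc (Real.exp_pos _)
  linarith

theorem TaskLimit.main : Pool.Agent.Q333.KL.TaskLimit := taskLimit

end Pool.Agent.Q333.KL
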