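import Pool.Agent.Q333.KL.Stmts

set_option autoImplicit false

open MeasureTheory ProbabilityTheory Set Filter Topology
open scoped ENNReal NNReal

namespace Pool.Agent.Q333.KL.TaskMean

open Pool.Agent.Q333.KL

lemma abs_moment : ∫⁻ x, ENNReal.ofReal |x| ∂(gaussianReal 0 1) ≤ 1 := by
  have hL2 : MemLp (fun x : ℝ => x) 2 (gaussianReal 0 1) := by
    exact memLp_id_gaussianReal (μ := 0) (v := 1) 2
  have hsq : Integrable (fun x : ℝ => x ^ 2) (gaussianReal 0 1) := hL2.integrable_sq
  have h1 : ∫ x, x ^ 2 ∂(gaussianReal 0 1) = 1 := by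
    have h2 : Var[fun x : ℝ => x; gaussianReal 0 1] = 1 := by
      simp
    have h3 : ∫ x, x ∂(gaussianReal 0 1) = 0 := by simp
    rw [variance_of_integral_eq_zero measurable_id'.aemeasurable h3] at h2
    exact h2
  calc ∫⁻ x, ENNReal.ofReal |x| ∂(gaussianReal 0 1)
      ≤ ∫⁻ x, ENNReal.ofReal ((1 + x ^ 2) / 2) ∂(gaussianReal 0 1) := by
        refine lintegral_mono fun x => ENNReal.ofReal_le_ofReal ?_
        nlinarith [sq_nonneg (|x| - 1), sq_abs x]
    _ = ENNReal.ofReal (∫ x, (1 + x ^ 2) / 2 ∂(gaussianReal 0 1)) := by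
        rw [ofReal_integral_eq_lintegral_ofReal]
        · exact ((integrable_const 1).add hsq).div_const 2
        · exact Eventually.of_forall fun x => by positivity
    _ = 1 := by
        rw [integral_div, integral_add (integrable_const 1) hsq, h1]
        simp

lemma psum_mono (τ : ℕ → ℝ) (h : ∀ k, 0 < τ k) : Monotone (psum τ) := by
  refine monotone_nat_of_le_succ fun n => ?_
  unfold psum
  rw [Finset.sum_range_succ]
  linarith [h n]

lemma tsum_le (τ : ℕ → ℝ) (h : ∀ k, 0 < τ k) (s : ℝ) :
    ∑' m, (Ico (psum τ m) (psum τ (m + 1))).indicator (fun _ => (1 : ℝ≥0∞)) s ≤ 1 := by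
  by_cases hm : ∃ m, s ∈ Ico (psum τ m) (psum τ (m + 1))
  · obtain ⟨m, hm⟩ := hm
    rw [tsum_eq_single m, indicator_of_mem hm]
    intro m' hne
    refine indicator_of_notMem ?_ _
    rintro ⟨h1, h2⟩
    rcases lt_or_gt_of_ne hne with h3 | h3
    · have := psum_mono τ h (show m' + 1 ≤ m from h3)
      exact absurd hm.1 (by linarith)
    · have := psum_mono τ h (show m + 1 ≤ m' from h3)
      exact absurd hm.2 (by linarith)
  · push Not at hm
    rw [ENNReal.tsum_eq_zero.2 fun m => indicator_of_notMem (hm m) _]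
    exact zero_le_one

lemma meas_psum {Ω : Type} [MeasurableSpace Ω] (τ : ℕ → Ω → ℝ) (h : ∀ k, Measurable (τ k)) (m : ℕ) :
    Measurable fun ω => psum (fun k => τ k ω) m := by
  unfold psum
  exact Finset.measurable_sum _ fun k _ => h k

lemma meas_psum' (m : ℕ) : Measurable fun τ : ℕ → ℝ => psum τ m := by
  unfold psum
  exact Finset.measurable_sum _ fun k _ => measurable_pi_apply k

theorem main : Pool.Agent.Q333.KL.TaskMean := by
  intro Ω _ P _ τ H hτ hH hpos hlaw hind t ht
  have hmeas : ∀ m, Measurable (fun q : Ω × ℝ =>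
      (Ico (psum (fun k => τ k q.1) m) (psum (fun k => τ k q.1) (m + 1))).indicator
        (fun _ => ENNReal.ofReal |H m q.1|) q.2) := by
    intro m
    have hS : MeasurableSet {q : Ω × ℝ | psum (fun k => τ k q.1) m ≤ q.2 ∧
        q.2 < psum (fun k => τ k q.1) (m + 1)} :=
      (measurableSet_le ((meas_psum τ hτ m).comp measurable_fst) measurable_snd).inter
        (measurableSet_lt measurable_snd ((meas_psum τ hτ (m + 1)).comp measurable_fst))
    have hf : Measurable fun q : Ω × ℝ => ENNReal.ofReal |H m q.1| :=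
      (((hH m).comp measurable_fst).abs).ennreal_ofReal
    exact hf.indicator hS
  have hmeasW : Measurable (Function.uncurry fun (ω : Ω) (s : ℝ) =>
      ∑' m, (Ico (psum (fun k => τ k ω) m) (psum (fun k => τ k ω) (m + 1))).indicator
        (fun _ => ENNReal.ofReal |H m ω|) s) := Measurable.ennreal_tsum hmeas
  unfold WW
  rw [lintegral_lintegral_swap hmeasW.aemeasurable]
  have key : ∀ s, ∫⁻ ω, ∑' m, (Ico (psum (fun k => τ k ω) m) (psum (fun k => τ k ω) (m + 1))).indicator
        (fun _ => ENNReal.ofReal |H m ω|) s ∂P ≤ 1 := by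
    intro s
    have hms : ∀ m, Measurable fun ω => (Ico (psum (fun k => τ k ω) m)
        (psum (fun k => τ k ω) (m + 1))).indicator (fun _ => ENNReal.ofReal |H m ω|) s := fun m =>
      (hmeas m).comp (measurable_id.prodMk (measurable_const (a := s)))
    rw [lintegral_tsum fun m => (hms m).aemeasurable]
    have hm : ∀ m, ∫⁻ ω, (Ico (psum (fun k => τ k ω) m) (psum (fun k => τ k ω) (m + 1))).indicator
        (fun _ => ENNReal.ofReal |H m ω|) s ∂P ≤
        ∫⁻ ω, (Ico (psum (fun k => τ k ω) m) (psum (fun k => τ k ω) (m + 1))).indicator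
          (fun _ => (1 : ℝ≥0∞)) s ∂P := by
      intro m
      have hψ : Measurable fun τ : ℕ → ℝ => (Ico (psum τ m) (psum τ (m + 1))).indicator
          (fun _ => (1 : ℝ≥0∞)) s := by
        have hS : MeasurableSet {τ : ℕ → ℝ | psum τ m ≤ s ∧ s < psum τ (m + 1)} :=
          (measurableSet_le (meas_psum' m) measurable_const).inter
            (measurableSet_lt measurable_const (meas_psum' (m + 1)))
        exact (measurable_const (a := (1 : ℝ≥0∞))).indicator hS
      have hφ : Measurable fun x : ℝ => ENNReal.ofReal |x| := measurable_id.abs.ennreal_ofReal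
      have h1 := lintegral_mul_eq_lintegral_mul_lintegral_of_indepFun (hφ.comp (hH m))
        (hψ.comp (measurable_pi_lambda _ hτ)) ((hind m).comp hφ hψ)
      have h2 : ∫⁻ ω, ENNReal.ofReal |H m ω| ∂P ≤ 1 := by
        rw [← lintegral_map hφ (hH m), hlaw m]
        exact abs_moment
      calc _ = ∫⁻ ω, (((fun x : ℝ => ENNReal.ofReal |x|) ∘ H m) *
            ((fun τ : ℕ → ℝ => (Ico (psum τ m) (psum τ (m + 1))).indicator
              (fun _ => (1 : ℝ≥0∞)) s) ∘ fun ω k => τ k ω)) ω ∂P := by
            refine lintegral_congr fun ω => ?_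
            simp only [Pi.mul_apply, Function.comp]
            by_cases h : s ∈ Ico (psum (fun k => τ k ω) m) (psum (fun k => τ k ω) (m + 1))
            · rw [indicator_of_mem h, indicator_of_mem h, mul_one]
            · rw [indicator_of_notMem h, indicator_of_notMem h, mul_zero]
        _ = _ := h1
        _ ≤ 1 * _ := mul_le_mul' h2 le_rfl
        _ = _ := by rw [one_mul]; rfl
    refine (ENNReal.tsum_le_tsum hm).trans ?_
    rw [← lintegral_tsum]
    · calc _ ≤ ∫⁻ _, (1 : ℝ≥0∞) ∂P := by
            refine lintegral_mono_ae ?_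
            filter_upwards [hpos] with ω hω
            exact tsum_le _ hω s
        _ = 1 := by simp
    · intro m
      have hψ : Measurable fun τ : ℕ → ℝ => (Ico (psum τ m) (psum τ (m + 1))).indicator
          (fun _ => (1 : ℝ≥0∞)) s := by
        have hS : MeasurableSet {τ : ℕ → ℝ | psum τ m ≤ s ∧ s < psum τ (m + 1)} :=
          (measurableSet_le (meas_psum' m) measurable_const).inter
            (measurableSet_lt measurable_const (meas_psum' (m + 1)))
        exact (measurable_const (a := (1 : ℝ≥0∞))).indicator hS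
      exact (hψ.comp (measurable_pi_lambda _ hτ)).aemeasurable
  calc _ ≤ ∫⁻ _ in Ioc 0 t, (1 : ℝ≥0∞) := lintegral_mono fun s => key s
    _ = ENNReal.ofReal t := by simp

end Pool.Agent.Q333.KL.TaskMean
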