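import Pool.Agent.Q333.KL.Stmts

set_option autoImplicit false

open MeasureTheory ProbabilityTheory InformationTheory Set Filter Topology
open scoped ENNReal NNReal

namespace Pool.Agent.Q333.KL.TaskNorm

open Pool.Agent.Q333.KL

theorem reflect_abs (v d : ℝ) : |v - 2 * (v * d) / d ^ 2 * d| = |v| := by
  by_cases hd : d = 0
  · subst hd
    simp
  · have : v - 2 * (v * d) / d ^ 2 * d = -v := by
      field_simp
      ring
    rw [this, abs_neg]

theorem main : Pool.Agent.Q333.KL.TaskNorm := by
  intro U τ G E x v _ hpath s hs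
  obtain ⟨_, T, m, b, hT0, hm0, _, hmono, htend, hconst, hstep⟩ := hpath
  have key : ∀ k, psum τ (m k) ≤ T k ∧ |v (T k)| = |HH (v 0) G (m k)| := by
    intro k
    induction k with
    | zero =>
      rw [hT0, hm0]
      constructor
      · simp [psum]
      · simp [HH]
    | succ k ih =>
      rcases hstep k with ⟨h1, h2, h3, _⟩ | ⟨_, _, h3, h4, _⟩
      · rw [h3]
        refine ⟨h1.ge, ?_⟩
        rw [h2]
        simp [HH]
      · rw [h4]
        refine ⟨ih.1.trans (hmono (Nat.lt_succ_self k)).le, ?_⟩
        rw [h3, reflect_abs]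
        exact ih.2
  have hex : ∃ k, s < T k := by
    have := (htend.eventually (eventually_gt_atTop s)).exists
    exact this
  classical
  set k0 := Nat.find hex with hk0
  have hk1 : s < T k0 := Nat.find_spec hex
  have hk2 : k0 ≠ 0 := by
    intro h
    rw [h, hT0] at hk1
    exact absurd hk1 (not_lt.2 hs)
  obtain ⟨k, hk⟩ := Nat.exists_eq_succ_of_ne_zero hk2
  have hk3 : T k ≤ s := by
    by_contra hcon
    rw [not_le] at hcon
    have := Nat.find_min' hex hcon
    rw [← hk0, hk] at this
    omega
  rw [hk] at hk1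
  obtain ⟨h1, h2, _⟩ := hconst k s hk3 hk1
  refine ⟨m k, (key k).1.trans hk3, h2, ?_⟩
  rw [h1]
  exact (key k).2

end Pool.Agent.Q333.KL.TaskNorm
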