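import Mathlib
import Pool.Agent.Q333.KL.Stmts

set_option autoImplicit false

open MeasureTheory ProbabilityTheory InformationTheory Set Filter Topology
open scoped ENNReal NNReal

namespace Pool.Agent.Q333.KL.TaskWMeas

open Pool.Agent.Q333.KL

theorem main : Pool.Agent.Q333.KL.TaskWMeas := by
  intro t
  have hp : ∀ m, Measurable fun z : ((ℕ → ℝ) × (ℕ → ℝ)) × ℝ => psum z.1.1 m := by
    intro m
    unfold psum
    exact Finset.measurable_sum _ fun j _ =>
      (measurable_pi_apply j).comp (measurable_fst.comp measurable_fst)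
  have key : Measurable fun z : ((ℕ → ℝ) × (ℕ → ℝ)) × ℝ =>
      ∑' m, (Ico (psum z.1.1 m) (psum z.1.1 (m + 1))).indicator
        (fun _ => ENNReal.ofReal |z.1.2 m|) z.2 := by
    refine Measurable.ennreal_tsum fun m => ?_
    have hs : MeasurableSet {z : ((ℕ → ℝ) × (ℕ → ℝ)) × ℝ |
        psum z.1.1 m ≤ z.2 ∧ z.2 < psum z.1.1 (m + 1)} :=
      (measurableSet_le (hp m) measurable_snd).inter (measurableSet_lt measurable_snd (hp (m + 1)))
    have hm : Measurable fun z : ((ℕ → ℝ) × (ℕ → ℝ)) × ℝ => z.1.2 m :=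
      (measurable_pi_apply m).comp (measurable_snd.comp measurable_fst)
    have hf : Measurable fun z : ((ℕ → ℝ) × (ℕ → ℝ)) × ℝ => ENNReal.ofReal |z.1.2 m| := by
      fun_prop
    exact hf.indicator hs
  exact key.lintegral_prod_right'

end Pool.Agent.Q333.KL.TaskWMeas
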