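import Pool.Agent.Q333.KL.Stmts

set_option autoImplicit false

open MeasureTheory ProbabilityTheory InformationTheory Set Filter Topology
open scoped ENNReal NNReal

namespace Pool.Agent.Q333.KL.TaskZZ

theorem main : Pool.Agent.Q333.KL.TaskZZ := by
  intro U γ Ω _ P _ p₀ x v h hp t ht
  obtain ⟨E, -, -, -, -, hpath⟩ := h.path
  have hv0 : ∀ᵐ ω ∂P, |v 0 ω| = 1 := by
    rw [← h.init] at hp
    exact ae_of_ae_map (h.meas 0).aemeasurable hp
  have hS : MeasurableSet {z : ℝ × ℝ | t ≤ |z.1|} :=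
    measurableSet_le measurable_const (by fun_prop)
  have hS2 : MeasurableSet {z : ℝ × ℝ | 2 * t ≤ |z.1|} :=
    measurableSet_le measurable_const (by fun_prop)
  rw [← h.init, measureReal_def, measureReal_def, Measure.map_apply (h.meas 0) hS2,
    Measure.map_apply (h.meas t) hS]
  refine ENNReal.toReal_mono (measure_ne_top _ _) (measure_mono_ae ?_)
  filter_upwards [hpath, hv0] with ω hω hω' hmem
  have hmem : 2 * t ≤ |x 0 ω| := hmem
  have hn : ∀ s ∈ uIoc (0 : ℝ) t, ‖v s ω‖ ≤ 1 := by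
    intro s hs
    rw [uIoc_of_le ht] at hs
    have h1 := (hω s hs.1.le).2.2
    simp only at h1
    rw [h1, norm_mul, norm_pow, norm_neg, norm_one, one_pow, mul_one, Real.norm_eq_abs, hω']
  have h2 := intervalIntegral.norm_integral_le_of_norm_le_const hn
  rw [Real.norm_eq_abs, sub_zero, one_mul, abs_of_nonneg ht] at h2
  have h3 := (hω t ht).2.1
  simp only at h3
  show t ≤ |x t ω|
  have h4 : |x 0 ω| ≤ |x t ω| + |∫ s in (0 : ℝ)..t, v s ω| := by
    have : x 0 ω = x t ω - ∫ s in (0 : ℝ)..t, v s ω := by rw [h3]; ring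
    calc |x 0 ω| = |x t ω - ∫ s in (0 : ℝ)..t, v s ω| := by rw [← this]
      _ ≤ _ := abs_sub _ _
  linarith

end Pool.Agent.Q333.KL.TaskZZ
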